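import Pool.Agent.Helper36.T5b.Two
import Pool.Agent.Helper44.T5b.Joint
import Pool.Agent.Helper83.T5b.Leaf
import Pool.Agent.Helper2.T5b.ZSize
import Pool.Agent.Helper57.T5b.Z0
import Pool.Agent.Helper96.T5b.MNs

/-!
# T5b (MP_12a1af), line 6: `CaseInj` from the common target of the lines 6 and 7
-/

set_option autoImplicit false

namespace Pool.Agent.Helper36.T5b

open Finset Pool.Agent.Helper37.T5b Pool.Agent.Helper30.T5b
open Pool.Agent.Helper84.T5b Pool.Agent.Helper22.NEARb Pool.Agent.Helper1.T5b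
open Pool.Agent.Helper42.T5.Pr Pool.Agent.Helper44.T5b

/-- hits from labels with different sums, from the leaf bound and from the number of labels with a
given sum -/
theorem card_hts_le {m k l l' : ℕ} {w : Key → ℕ} {n M1 M2 M3 : ℕ}
    (h1 : ∀ c, ZHitC m k l l' w c → c ≤ M1) (h2 : ∀ c, LeafC m k l l' w c → c ≤ M2)
    (h3 : ∀ s, ((XJ m k l ×ˢ XJ m k l').filter
      (fun q => c0 m k l w q.1 + c0 m k l' w q.2 = s)).card ≤ M3) :
    (Hts m k l l' w n).card ≤ M2 * (M3 * M1) := by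
  classical
  have e1 : (Hts m k l l' w n).card ≤ M2 * (LbH m k l l' w n).card := by
    unfold LbH
    refine card_le_mul_card_image (f := fun q : Par m k l × Par m k l' => (q.1.1.1, q.2.1.1))
      (Hts m k l l' w n) M2 (fun b _ => ?_)
    refine le_trans (le_of_eq ?_) (h2 _ ⟨n, b.1, b.2, rfl⟩)
    congr 1
    refine filter_congr (fun q _ => ?_)
    exact Prod.ext_iff
  have hx : ∀ q ∈ LbH m k l l' w n, q ∈ XJ m k l ×ˢ XJ m k l' := by
    intro q hq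
    unfold LbH at hq
    obtain ⟨r, hr, rfl⟩ := mem_image.1 hq
    unfold Hts Pm at hr
    have h4 := mem_product.1 (mem_filter.1 hr).1
    exact mem_product.2 ⟨(mem_product.1 (mem_product.1 h4.1).1).1,
      (mem_product.1 (mem_product.1 h4.2).1).1⟩
  have e2 : (LbH m k l l' w n).card ≤ M3 * ((LbH m k l l' w n).image (sJ m k l l' w)).card := by
    refine card_le_mul_card_image (LbH m k l l' w n) M3 (fun s _ => ?_)
    refine le_trans (card_le_card (fun q hq => ?_)) (h3 s)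
    obtain ⟨a1, a2⟩ := mem_filter.1 hq
    exact mem_filter.2 ⟨hx q a1, a2⟩
  have e3 : ((LbH m k l l' w n).image (sJ m k l l' w)).card ≤ M1 := by
    have hex : ∀ s ∈ (LbH m k l l' w n).image (sJ m k l l' w),
        ∃ q ∈ LbH m k l l' w n, sJ m k l l' w q = s := fun s hs => mem_image.1 hs
    choose! g hg1 hg2 using hex
    have hcard : (((LbH m k l l' w n).image (sJ m k l l' w)).image g).card =
        ((LbH m k l l' w n).image (sJ m k l l' w)).card := by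
      refine card_image_of_injOn (fun s hsm t htm hst => ?_)
      rw [← hg2 s hsm, ← hg2 t htm, hst]
    rw [← hcard]
    refine h1 _ ⟨n, ((LbH m k l l' w n).image (sJ m k l l' w)).image g, ?_, ?_, rfl⟩
    · intro q hq
      obtain ⟨s, hsm, rfl⟩ := mem_image.1 hq
      exact hg1 s hsm
    · intro a ha b hb hab
      obtain ⟨s, hsm, rfl⟩ := mem_image.1 (mem_coe.1 ha)
      obtain ⟨t, htm, rfl⟩ := mem_image.1 (mem_coe.1 hb)
      rw [hg2 s hsm, hg2 t htm] at hab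
      rw [hab]
  exact e1.trans (Nat.mul_le_mul_left _ (e2.trans (Nat.mul_le_mul_left _ e3)))

/-- **line 6** from the common target of the lines 6 and 7 -/
theorem inj_of (hZ : ZStatS) : Blk CaseInj HtC := by
  obtain ⟨E, m1, hZ⟩ := hZ
  obtain ⟨E', m2, hL⟩ := Pool.Agent.Helper83.T5b.blk_leaf
  refine ⟨E + E', max m1 m2 + 2, fun m hm => ?_⟩
  have hm1 : m1 ≤ m := by omega
  have hm2 : m2 ≤ m := by omega
  have hm0 : 2 ≤ m := by omega
  obtain ⟨K1, C1, c1, m1', a1, a2, a3, hZ⟩ := hZ m hm1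
  obtain ⟨K2, C2, c2, m2', b1, b2, b3, hL⟩ := hL m hm2
  obtain ⟨K3, hHz⟩ := Pool.Agent.Helper57.T5b.hzS (m := m) (k := m ^ 2) hm0 (by nlinarith)
  obtain ⟨K4, hla⟩ := Pool.Agent.Helper96.T5b.exists_large m (m ^ 2)
  set M3 := (2 * BP (m ^ 2)) ^ 7 with hM3
  refine ⟨K1 + K2 + K3 + K4 + 1, C2 * (M3 * C1), min c1 c2, m1' + m2', by positivity,
    lt_min a2 b2, by positivity, ?_⟩
  intro l l' hl' hll hp K hK hK'
  have hl1 : (1 : ℝ) ≤ (l : ℝ) := by exact_mod_cast (show 1 ≤ l by omega)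
  have hl0 : (0 : ℝ) < (l : ℝ) := by linarith
  have hsum : (l : ℝ) ^ (((E + E' : ℕ) : ℝ) / (m : ℝ)) =
      (l : ℝ) ^ ((E : ℝ) / (m : ℝ)) * (l : ℝ) ^ ((E' : ℝ) / (m : ℝ)) := by
    rw [← Real.rpow_add hl0]
    congr 1
    push_cast
    ring
  have hDZ : DZ m (m ^ 2) l' l := Pool.Agent.Helper57.T5b.DZ.of_inj (by omega) hll hp
  have hA := hZ l l' (by omega) hll hDZ K hK hK'
  have hB := hL l l' (by omega) hll hp.1.1 K hK hK'
  obtain ⟨-, -, -, -, -, -, hc⟩ := hHz l' l (by omega) hDZ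
  have h3 : ∀ (w : Key → ℕ) (s : ℕ), ((XJ m (m ^ 2) l ×ˢ XJ m (m ^ 2) l').filter
      (fun q => c0 m (m ^ 2) l w q.1 + c0 m (m ^ 2) l' w q.2 = s)).card ≤ M3 := by
    intro w s
    refine le_trans (le_of_eq ?_) ((inj_sum (by omega) (hla l' (by omega)).1 hll hp.2.1 hc hp.2.2
      w s).trans (Pool.Agent.Helper2.T5b.CJ_le _ _))
    congr 1
  refine PrLe_mono (fun r _ hw => ?_) ?_ (PrLe_or hA hB)
  · generalize ext K r = w at hw ⊢
    by_contra hcon
    rw [not_or] at hcon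
    obtain ⟨hn1, hn2⟩ := hcon
    push Not at hn1 hn2
    obtain ⟨c, ⟨n, rfl⟩, hlt⟩ := hw
    set M1 := ⌊C1 * (l : ℝ) ^ ((E : ℝ) / (m : ℝ))⌋₊ with hM1
    set M2 := ⌊C2 * (l : ℝ) ^ ((E' : ℝ) / (m : ℝ))⌋₊ with hM2
    have hr1 : (0 : ℝ) ≤ C1 * (l : ℝ) ^ ((E : ℝ) / (m : ℝ)) :=
      mul_nonneg a1 (Real.rpow_nonneg hl0.le _)
    have hr2 : (0 : ℝ) ≤ C2 * (l : ℝ) ^ ((E' : ℝ) / (m : ℝ)) :=
      mul_nonneg b1 (Real.rpow_nonneg hl0.le _)
    have hM1' : (M1 : ℝ) ≤ C1 * (l : ℝ) ^ ((E : ℝ) / (m : ℝ)) := Nat.floor_le hr1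
    have hM2' : (M2 : ℝ) ≤ C2 * (l : ℝ) ^ ((E' : ℝ) / (m : ℝ)) := Nat.floor_le hr2
    have hcard := card_hts_le (n := n) (M1 := M1) (M2 := M2) (M3 := M3)
      (fun c hc => Nat.le_floor (hn1 c hc)) (fun c hc => Nat.le_floor (hn2 c hc)) (h3 w)
    have h5 : ((Hts m (m ^ 2) l l' w n).card : ℝ) ≤ (M2 : ℝ) * ((M3 : ℝ) * M1) := by
      exact_mod_cast hcard
    have h6 : (M2 : ℝ) * ((M3 : ℝ) * M1) ≤
        C2 * (M3 * C1) * (l : ℝ) ^ (((E + E' : ℕ) : ℝ) / (m : ℝ)) := by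
      rw [hsum]
      calc (M2 : ℝ) * ((M3 : ℝ) * M1) ≤ (C2 * (l : ℝ) ^ ((E' : ℝ) / (m : ℝ))) *
            ((M3 : ℝ) * (C1 * (l : ℝ) ^ ((E : ℝ) / (m : ℝ)))) :=
            mul_le_mul hM2' (mul_le_mul_of_nonneg_left hM1' (Nat.cast_nonneg _))
              (by positivity) hr2
        _ = _ := by ring
    linarith
  · have e1 : Real.exp (-((l : ℝ) ^ c1)) ≤ Real.exp (-((l : ℝ) ^ min c1 c2)) :=
      Real.exp_le_exp.2 (neg_le_neg (Real.rpow_le_rpow_of_exponent_le hl1 (min_le_left _ _)))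
    have e2 : Real.exp (-((l : ℝ) ^ c2)) ≤ Real.exp (-((l : ℝ) ^ min c1 c2)) :=
      Real.exp_le_exp.2 (neg_le_neg (Real.rpow_le_rpow_of_exponent_le hl1 (min_le_right _ _)))
    nlinarith [mul_le_mul_of_nonneg_left e1 a3, mul_le_mul_of_nonneg_left e2 b3]

/-- **line 6**: representations -/
theorem inj_rpc (hZ : ZStatS) : Blk CaseInj RpC := (inj_of hZ).rp_of_ht

end Pool.Agent.Helper36.T5b
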