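import Pool.Agent.Helper1.T5b.Lines67
import Pool.Agent.Helper29.T5b.Free
import Pool.Agent.Helper87.OUT2.Final

/-!
# T5b (MP_12a1af), line 7: representations
-/

set_option autoImplicit false

namespace Pool.Agent.Helper36.T5b

open Pool.Agent.Helper84.T5b

/-- **line 7**, the field `two` of `Blocks` -/
theorem blk_two : Blk CaseTwo RpC :=
  rpc_of_free (m0 := 1) (fun _ _ _ _ h => h.1)
    (fun m hm => Pool.Agent.Helper29.T5b.freeStmt m (by omega))
    (Pool.Agent.Helper87.OUT2.blk_up.mono (fun _ _ _ _ h => ⟨h.1, h.2.1, h.2.2.1⟩)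
      (fun _ _ _ _ _ c hc => ⟨c, le_rfl, hc⟩))
    Pool.Agent.Helper1.T5b.blk_two_free

end Pool.Agent.Helper36.T5b
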